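import Pool.Agent.W313.HB.Stm2

set_option autoImplicit false
set_option linter.unusedVariables false

/-!
A point in a residue class at which the value of a polynomial has few small prime factors.
-/

namespace Pool.Agent.W930.HB

open Finset Pool.Agent.W313.HB

/-- reduction of values -/
lemma eval_mod {m : ℕ} (r : MvPolynomial (Fin m) ℤ) (w : Fin m → ℤ) (p : ℕ) :
    ((MvPolynomial.eval w r : ℤ) : ZMod p) =
      MvPolynomial.eval (fun i => (w i : ZMod p)) (MvPolynomial.map (Int.castRingHom (ZMod p)) r) := by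
  rw [MvPolynomial.eval_map]
  have h := MvPolynomial.eval₂_comp_left (Int.castRingHom (ZMod p)) (RingHom.id ℤ) w r
  rw [RingHom.comp_id] at h
  exact h

lemma eval_congr {m : ℕ} (r : MvPolynomial (Fin m) ℤ) (w w' : Fin m → ℤ) (p : ℕ)
    (h : ∀ i, (p : ℤ) ∣ w i - w' i) :
    (p : ℤ) ∣ MvPolynomial.eval w r ↔ (p : ℤ) ∣ MvPolynomial.eval w' r := by
  rw [← ZMod.intCast_zmod_eq_zero_iff_dvd, ← ZMod.intCast_zmod_eq_zero_iff_dvd, eval_mod, eval_mod]
  have : (fun i => (w i : ZMod p)) = fun i => (w' i : ZMod p) := by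
    funext i
    have h1 := (ZMod.intCast_zmod_eq_zero_iff_dvd (w i - w' i) p).2 (h i)
    rw [Int.cast_sub, sub_eq_zero] at h1
    exact h1
  rw [this]

/-- a point modulo a large prime -/
lemma exists_mod {m : ℕ} (r : MvPolynomial (Fin m) ℤ) (m0 : Fin m →₀ ℕ) (h0 : r.coeff m0 ≠ 0)
    (p : ℕ) [hp : Fact p.Prime] (h1 : (r.coeff m0).natAbs < p) (h2 : r.totalDegree < p) :
    ∃ y : Fin m → ZMod p,
      MvPolynomial.eval y (MvPolynomial.map (Int.castRingHom (ZMod p)) r) ≠ 0 := by
  by_contra hcon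
  push Not at hcon
  have h3 : MvPolynomial.map (Int.castRingHom (ZMod p)) r = 0 := by
    refine MvPolynomial.eq_zero_of_eval_zero_at_prod_finset _ (fun _ => Finset.univ) ?_
      (fun x _ => hcon x)
    intro i
    rw [Finset.card_univ, ZMod.card]
    exact lt_of_le_of_lt ((MvPolynomial.degreeOf_le_totalDegree _ i).trans
      (Finset.sup_mono (MvPolynomial.support_map_subset _ _))) h2
  have h4 := congrArg (MvPolynomial.coeff m0) h3
  rw [MvPolynomial.coeff_map, MvPolynomial.coeff_zero, eq_intCast,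
    ZMod.intCast_zmod_eq_zero_iff_dvd] at h4
  have h5 := Int.natAbs_dvd_natAbs.2 h4
  rw [Int.natAbs_natCast] at h5
  exact absurd (Nat.le_of_dvd (Int.natAbs_pos.2 h0) h5) (by omega)

/-- the Chinese remainder theorem -/
lemma crt {m : ℕ} (r : MvPolynomial (Fin m) ℤ) (m0 : Fin m →₀ ℕ) (h0 : r.coeff m0 ≠ 0)
    (N : ℕ) (x : Fin m → ℤ) (S : Finset ℕ) :
    (∀ p ∈ S, p.Prime ∧ ¬ p ∣ N ∧ (r.coeff m0).natAbs < p ∧ r.totalDegree < p) →
    ∃ w : Fin m → ℤ, (∀ i, (N : ℤ) ∣ w i - x i) ∧ ∀ p ∈ S, ¬ (p : ℤ) ∣ MvPolynomial.eval w r := by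
  classical
  induction S using Finset.induction_on with
  | empty => intro _; exact ⟨x, fun i => by simp, fun p hp => by simp at hp⟩
  | insert p S hpS ih =>
    intro hS
    obtain ⟨w, hw1, hw2⟩ := ih fun q hq => hS q (Finset.mem_insert_of_mem hq)
    obtain ⟨hp, hpN, hp1, hp2⟩ := hS p (Finset.mem_insert_self _ _)
    have : Fact p.Prime := ⟨hp⟩
    obtain ⟨y, hy⟩ := exists_mod r m0 h0 p hp1 hp2
    set M : ℕ := N * ∏ q ∈ S, q with hM
    have hpM : ¬ p ∣ M := by
      rw [hM, hp.dvd_mul, not_or]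
      refine ⟨hpN, ?_⟩
      rw [Prime.dvd_finsetProd_iff hp.prime]
      rintro ⟨q, hq, hpq⟩
      have hq' := (hS q (Finset.mem_insert_of_mem hq)).1
      have := (Nat.prime_dvd_prime_iff_eq hp hq').1 hpq
      rw [this] at hpS
      exact hpS hq
    have hM0 : (M : ZMod p) ≠ 0 := by
      rw [Ne, ZMod.natCast_eq_zero_iff]
      exact hpM
    let k : Fin m → ℤ := fun i => (((y i - (w i : ZMod p)) * (M : ZMod p)⁻¹).val : ℤ)
    have hk : ∀ i, ((w i + M * k i : ℤ) : ZMod p) = y i := by
      intro i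
      have h1 : ((k i : ℤ) : ZMod p) = (y i - (w i : ZMod p)) * (M : ZMod p)⁻¹ := by
        show (((((y i - (w i : ZMod p)) * (M : ZMod p)⁻¹).val : ℕ) : ℤ) : ZMod p) = _
        rw [Int.cast_natCast, ZMod.natCast_val, ZMod.cast_id', id_eq]
      push_cast
      rw [h1]
      field_simp
      ring
    refine ⟨fun i => w i + M * k i, ?_, ?_⟩
    · intro i
      have h1 : w i + M * k i - x i = (w i - x i) + N * ((∏ q ∈ S, (q : ℤ)) * k i) := by
        rw [hM]
        push_cast
        ring
      rw [h1]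
      exact dvd_add (hw1 i) (dvd_mul_right _ _)
    · intro q hq
      rcases Finset.mem_insert.1 hq with h | h
      · subst h
        rw [← ZMod.intCast_zmod_eq_zero_iff_dvd, eval_mod]
        have : (fun i => ((w i + M * k i : ℤ) : ZMod q)) = y := funext hk
        rw [this]
        exact hy
      · have h1 : (q : ℤ) ∣ MvPolynomial.eval (fun i => w i + M * k i) r ↔
            (q : ℤ) ∣ MvPolynomial.eval w r := by
          apply eval_congr
          intro i
          have h2 : w i + M * k i - w i = M * k i := by ring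
          rw [h2]
          refine Dvd.dvd.mul_right ?_ _
          have h3 : q ∣ M := by
            rw [hM]
            exact (Finset.dvd_prod_of_mem (fun q => q) h).mul_left N
          exact_mod_cast h3
        rw [h1]
        exact hw2 q h

/-- the size of the values -/
lemma eval_le {m : ℕ} (r : MvPolynomial (Fin m) ℤ) (w : Fin m → ℤ) (L : ℝ) (hL : 1 ≤ L)
    (hw : ∀ i, |(w i : ℝ)| ≤ L) :
    |((MvPolynomial.eval w r : ℤ) : ℝ)| ≤
      (∑ d ∈ r.support, |((r.coeff d : ℤ) : ℝ)|) * L ^ r.totalDegree := by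
  rw [MvPolynomial.eval_eq']
  push_cast
  refine (Finset.abs_sum_le_sum_abs _ _).trans ?_
  rw [Finset.sum_mul]
  refine Finset.sum_le_sum fun d hd => ?_
  rw [abs_mul]
  refine mul_le_mul_of_nonneg_left ?_ (abs_nonneg _)
  rw [Finset.abs_prod]
  calc ∏ i, |(w i : ℝ) ^ d i| ≤ ∏ i, L ^ d i := by
        refine Finset.prod_le_prod (fun i _ => abs_nonneg _) fun i _ => ?_
        rw [abs_pow]
        exact pow_le_pow_left₀ (abs_nonneg _) (hw i) _
    _ = L ^ ∑ i, d i := by rw [Finset.prod_pow_eq_pow_sum]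
    _ ≤ L ^ r.totalDegree := by
        refine pow_le_pow_right₀ hL ?_
        have h1 := MvPolynomial.le_totalDegree hd
        rw [Finsupp.sum_fintype _ _ (fun _ => rfl)] at h1
        exact h1

theorem choose_ : S_CHOOSE := by
  intro n r hr
  obtain ⟨m0, h0⟩ := MvPolynomial.ne_zero_iff.1 hr
  refine ⟨(r.coeff m0).natAbs + r.totalDegree, ?_⟩
  intro N hN hNz x ε hε
  set z0 := (r.coeff m0).natAbs + r.totalDegree with hz0
  obtain ⟨p1, hp1, hp1p⟩ := Nat.exists_infinite_primes (N + z0 + 1)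
  have hN' : (1 : ℝ) ≤ N := by exact_mod_cast hN
  -- the constants
  set H : ℝ := ∑ d ∈ r.support, |((r.coeff d : ℤ) : ℝ)| with hH
  have hH1 : 1 ≤ H := by
    have h1 : m0 ∈ r.support := MvPolynomial.mem_support_iff.2 h0
    have h2 : |((r.coeff m0 : ℤ) : ℝ)| ≤ H :=
      Finset.single_le_sum (f := fun d => |((r.coeff d : ℤ) : ℝ)|) (fun d _ => abs_nonneg _) h1
    have h3 : (1 : ℝ) ≤ |((r.coeff m0 : ℤ) : ℝ)| := by exact_mod_cast Int.one_le_abs h0
    linarith
  set D := r.totalDegree with hD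
  set C : ℝ := Real.log H + D * (Real.log N + Real.log 4) with hC
  have hC0 : 0 ≤ C := by
    have h1 := Real.log_nonneg hH1
    have h2 := Real.log_nonneg hN'
    have h3 : 0 ≤ Real.log 4 := Real.log_nonneg (by norm_num)
    positivity
  obtain ⟨z, hz1, hz2, hz3⟩ : ∃ z : ℕ, p1 ≤ z ∧ 2 ≤ z ∧ C / ε ≤ Real.log z := by
    have h1 : ∀ᶠ z : ℕ in Filter.atTop, C / ε ≤ Real.log z :=
      (Real.tendsto_log_atTop.comp tendsto_natCast_atTop_atTop).eventually_ge_atTop _
    obtain ⟨z, hz⟩ := ((Filter.eventually_ge_atTop p1).and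
      ((Filter.eventually_ge_atTop 2).and h1)).exists
    exact ⟨z, hz.1, hz.2.1, hz.2.2⟩
  have hzr : (2 : ℝ) ≤ z := by exact_mod_cast hz2
  have hlogz : 0 < Real.log z := Real.log_pos (by linarith)
  -- the primes
  set S : Finset ℕ := (Finset.range (z + 1)).filter (fun p => p.Prime ∧ ¬ p ∣ N) with hS
  have hSz : ∀ p ∈ S, z0 < p := by
    intro p hp
    rw [hS, Finset.mem_filter] at hp
    by_contra hcon
    exact hp.2.2 (hNz p hp.2.1 (by omega))
  obtain ⟨w', hw1, hw2⟩ := crt r m0 h0 N x S (fun p hp => by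
    have h1 := hSz p hp
    rw [hS, Finset.mem_filter] at hp
    exact ⟨hp.2.1, hp.2.2, by omega, by omega⟩)
  set Q : ℕ := N * ∏ p ∈ S, p with hQ
  have hQ0 : 0 < Q := by
    rw [hQ]
    refine Nat.mul_pos hN (Finset.prod_pos fun p hp => ?_)
    rw [hS, Finset.mem_filter] at hp
    exact hp.2.1.pos
  have hQle : (Q : ℝ) ≤ N * 4 ^ z := by
    have h1 : ∏ p ∈ S, p ≤ primorial z := by
      unfold primorial
      refine Finset.prod_le_prod_of_subset_of_one_le' ?_ ?_
      · intro p hp
        rw [hS, Finset.mem_filter] at hp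
        rw [Finset.mem_filter]
        exact ⟨hp.1, hp.2.1⟩
      · intro p hp _
        exact (Finset.mem_filter.1 hp).2.one_le
    have h2 := h1.trans (primorial_le_four_pow z)
    have h3 : Q ≤ N * 4 ^ z := by
      rw [hQ]
      exact Nat.mul_le_mul_left _ h2
    exact_mod_cast h3
  let w : Fin (n + 1) → ℤ := fun i => w' i % (Q : ℤ)
  have hQi : (0 : ℤ) < Q := by exact_mod_cast hQ0
  have hww : ∀ i, (Q : ℤ) ∣ w i - w' i := by
    intro i
    exact ⟨-(w' i / Q), by
      have := Int.emod_add_mul_ediv (w' i) Q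
      show w' i % (Q : ℤ) - w' i = _
      linear_combination this⟩
  have hwabs : ∀ i, |(w i : ℝ)| ≤ N * 4 ^ z := by
    intro i
    have h1 : 0 ≤ w i := Int.emod_nonneg _ hQi.ne'
    have h2 : w i < Q := Int.emod_lt_of_pos _ hQi
    have h3 : (w i : ℝ) ≤ Q := by exact_mod_cast h2.le
    rw [abs_of_nonneg (by exact_mod_cast h1)]
    exact h3.trans hQle
  have hdvd : ∀ p ∈ S, ¬ (p : ℤ) ∣ MvPolynomial.eval w r := by
    intro p hp
    have h1 := eval_congr r w w' p (fun i => by
      refine dvd_trans ?_ (hww i)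
      have : p ∣ Q := by
        rw [hQ]
        exact (Finset.dvd_prod_of_mem (fun q => q) hp).mul_left N
      exact_mod_cast this)
    rw [h1]
    exact hw2 p hp
  have hp1S : p1 ∈ S := by
    rw [hS, Finset.mem_filter]
    refine ⟨Finset.mem_range.2 (by omega), hp1p, ?_⟩
    intro h
    have := Nat.le_of_dvd hN h
    omega
  have hne : MvPolynomial.eval w r ≠ 0 := by
    intro h
    apply hdvd p1 hp1S
    rw [h]
    exact dvd_zero _
  refine ⟨w, ?_, hne, ?_⟩
  · intro i
    have h1 : w i - x i = (w i - w' i) + (w' i - x i) := by ring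
    rw [h1]
    refine dvd_add (dvd_trans ?_ (hww i)) (hw1 i)
    rw [hQ]
    push_cast
    exact dvd_mul_right _ _
  · set P := (MvPolynomial.eval w r).natAbs.primeFactors.filter (fun p => ¬ p ∣ N) with hP
    have hPz : ∀ p ∈ P, z < p := by
      intro p hp
      rw [hP, Finset.mem_filter, Nat.mem_primeFactors] at hp
      by_contra hcon
      have hpS : p ∈ S := by
        rw [hS, Finset.mem_filter]
        exact ⟨Finset.mem_range.2 (by omega), hp.1.1, hp.2⟩
      apply hdvd p hpS
      exact Int.natCast_dvd.2 hp.1.2.1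
    -- the number of primes
    have hv : (z : ℝ) ^ P.card ≤ |((MvPolynomial.eval w r : ℤ) : ℝ)| := by
      have h1 : z ^ P.card ≤ ∏ p ∈ P, p := Finset.pow_card_le_prod P (fun p => p) z
        fun p hp => (hPz p hp).le
      have h2 : ∏ p ∈ P, p ∣ (MvPolynomial.eval w r).natAbs := by
        refine dvd_trans (Finset.prod_dvd_prod_of_subset _ _ _ (Finset.filter_subset _ _))
          (Nat.prod_primeFactors_dvd _)
      have h3 := Nat.le_of_dvd (Int.natAbs_pos.2 hne) h2
      have h4 : ((z ^ P.card : ℕ) : ℝ) ≤ (((MvPolynomial.eval w r).natAbs : ℕ) : ℝ) := by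
        exact_mod_cast h1.trans h3
      rw [Nat.cast_natAbs] at h4
      push_cast at h4
      exact h4
    have hL1 : (1 : ℝ) ≤ N * 4 ^ z := by
      have : (1 : ℝ) ≤ 4 ^ z := one_le_pow₀ (by norm_num)
      nlinarith
    have hv2 := hv.trans (eval_le r w (N * 4 ^ z) hL1 hwabs)
    have hv3 := Real.log_le_log (by positivity) hv2
    rw [Real.log_pow, ← hH, ← hD, Real.log_mul (by positivity) (by positivity), Real.log_pow,
      Real.log_mul (by positivity) (by positivity), Real.log_pow] at hv3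
    have hz1' : (1 : ℝ) ≤ z := by linarith
    have hv4 : (P.card : ℝ) * Real.log z ≤ C * z := by
      refine hv3.trans ?_
      rw [hC]
      have h1 := Real.log_nonneg hH1
      have h2 := Real.log_nonneg hN'
      have h5 : Real.log H ≤ Real.log H * z := by nlinarith
      have h6 : (D : ℝ) * Real.log N ≤ D * Real.log N * z := by
        have : (0 : ℝ) ≤ D * Real.log N := by positivity
        nlinarith
      nlinarith
    calc ∑ p ∈ P, 1 / (p : ℝ) ≤ ∑ p ∈ P, 1 / (z : ℝ) := by
          refine Finset.sum_le_sum fun p hp => ?_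
          apply one_div_le_one_div_of_le (by linarith)
          exact_mod_cast (hPz p hp).le
      _ = P.card / z := by
          rw [Finset.sum_const, nsmul_eq_mul]
          ring
      _ ≤ C / Real.log z := by
          rw [div_le_div_iff₀ (by linarith) hlogz]
          exact hv4
      _ ≤ ε := by
          rw [div_le_iff₀ hlogz]
          rw [div_le_iff₀ hε] at hz3
          linarith

end Pool.Agent.W930.HB
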